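import Pool.Agent.H92.EHD.TK

/-!
Board ehd_modules (MP_75a732_an), block R: the row `0` becomes Gaussian.
-/

namespace Pool.Agent.H92.EHD

open scoped BigOperators ComplexConjugate ContDiff ComplexOrder
open MeasureTheory Pool.Agent.H92.EQ

noncomputable section

section defs

variable {k : ℕ}

/-- The heat potential `∫_0^1 gs s z ds`. -/
def Lam (z : ℂ) : ENNReal := ∫⁻ s in Set.Ioo (0 : ℝ) 1, ENNReal.ofReal (gs s z)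

/-- The trace of a coefficient tensor. -/
def trF {ι : Type} [Fintype ι] {p : ℕ} (T : (Fin p → ι) → (Fin p → ι) → ℂ) : ℝ :=
  ∑ I, (T I I).re

/-- Alternating positive tensors killing `y`. -/
structure Ten {N s : ℕ} (y : Fin N → ℂ) (W : (Fin s → Fin N) → (Fin s → Fin N) → ℂ) :
    Prop where
  psd : Psd W
  altL : ∀ (π : Equiv.Perm (Fin s)) I J, W (I ∘ π) J = ((Equiv.Perm.sign π : ℤ) : ℂ) * W I J
  altR : ∀ (π : Equiv.Perm (Fin s)) I J, W I (J ∘ π) = ((Equiv.Perm.sign π : ℤ) : ℂ) * W I J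
  kilL : KilL y W
  kilR : KilR y W

/-- The contraction of `X^* S` in the direction of the entry `(0,j)`. -/
def Wj {s : ℕ} (S : Form (Fin (k + 1)) (s + 1)) (X : Fin (k + 1) → Fin (k + 1) → ℂ)
    (j : Fin (k + 1)) : Form (Fin (k + 1)) s := fun y I J =>
  ((‖y j‖ ^ 2 : ℝ) : ℂ) * ∑ K : Fin s → Fin (k + 1), ∑ L : Fin s → Fin (k + 1),
    S ((Matrix.of X).mulVec y) (Fin.cons (α := fun _ => Fin (k + 1)) 0 K)
      (Fin.cons (α := fun _ => Fin (k + 1)) 0 L) *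
      (∏ l, X (K l) (I l)) * ∏ l, conj (X (L l) (J l))

end defs

/-- RDA: domination of tensors. -/
def T_RDA : Prop :=
  ∀ N s : ℕ, s < N → ∃ C : ℝ, 0 < C ∧ ∀ (y : Fin N → ℂ)
    (W : (Fin s → Fin N) → (Fin s → Fin N) → ℂ), y ≠ 0 → Ten y W →
    Psd (fun I J => ((C * trF W * nsq y ^ s : ℝ) : ℂ) * om N s y I J - W I J)

/-- RDO: domination of densities. -/
def T_RDO : Prop :=
  ∀ N s m : ℕ, s + m + 1 = N → ∃ C : ℝ, 0 < C ∧ ∀ (D : ℕ)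
    (Φ : Fin N → MvPolynomial (Fin N) ℂ), 1 ≤ D → IsH D Φ → ∀ (W : Form (Fin N) s)
    (v : Fin m → (Fin N → ℂ) → ℝ), (∀ j, Pot (v j)) → ∀ x : Fin N → ℂ, x ≠ 0 →
    Ten (ev Φ x) (W (ev Φ x)) →
    Q (pull Φ W) v x ≤
      C * trF (W (ev Φ x)) * nsq (ev Φ x) ^ s * Q (pull Φ (om N s)) v x

/-- RPD: properties of the contraction. -/
def T_RPD : Prop :=
  ∀ (k s : ℕ) (S : Form (Fin (k + 1)) (s + 1)) (X : Fin (k + 1) → Fin (k + 1) → ℂ)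
    (j : Fin (k + 1)) (y : Fin (k + 1) → ℂ), ProjForm S → (Matrix.of X).det ≠ 0 → y ≠ 0 →
    Ten y (Wj S X j y) ∧ 0 ≤ trF (S ((Matrix.of X).mulVec y)) ∧
    trF (Wj S X j y) ≤ ‖y j‖ ^ 2 * trF (S ((Matrix.of X).mulVec y)) *
      (∑ i : Fin k, nsq (X i.succ)) ^ s

/-- RW: the density over the one parameter family. -/
def T_RW : Prop :=
  ∀ k s q : ℕ, s + 1 + q = k → ∃ c : ℝ, 0 < c ∧ ∀ (D : ℕ)
    (Φ : Fin (k + 1) → MvPolynomial (Fin (k + 1)) ℂ), 1 ≤ D → IsH D Φ →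
    ∀ (S : Form (Fin (k + 1)) (s + 1)), ProjForm S →
    ∀ (X : Fin (k + 1) → Fin (k + 1) → ℂ) (j : Fin (k + 1))
    (v : Fin (q + 1) → (Fin (k + 1) → ℂ) → ℝ), (∀ l, Pot (v l)) →
    ∀ (t : ℂ) (x : Fin (k + 1) → ℂ), x ≠ 0 → (Matrix.of (rep X 0 j t)).det ≠ 0 →
    QT (pull (Pool.Agent.H14.EQ.GP Φ X 0 j) S) (fun l z => v l (tl z)) (ct t x) =
      c * Q (pull Φ (Wj S (rep X 0 j t) j)) v x

/-- RTR: the trace is bounded by the trace density. -/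
def T_RTR : Prop :=
  ∀ N p q : ℕ, p + q + 1 = N → ∃ C : ℝ, 0 < C ∧ ∀ S : Form (Fin N) p, ProjForm S →
    ∀ Y : Fin N → ℂ, Y ≠ 0 →
    trF (S Y) ≤ C * nsq Y ^ (N - p) * Q S (fun _ : Fin q => ell) Y

/-- RLA: the heat potential. -/
def T_RLA : Prop :=
  Measurable Lam ∧ ∃ C : ℝ, 0 < C ∧ ∀ z : ℂ, z ≠ 0 →
    Lam z ≤ ENNReal.ofReal (C * Real.exp (-‖z‖ ^ 2) * (1 + max 0 (-Real.log ‖z‖)))

/-- RGB: the heat potential and Gaussian means. -/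
def T_RGB : Prop :=
  ∀ (n : ℕ) (a : Fin n → ℂ) (b : ℂ), nsq a + ‖b‖ ^ 2 ≤ 1 → ∀ g : ℂ → ENNReal, Measurable g →
    ∫⁻ ρ : Fin n → ℂ, ENNReal.ofReal (∏ i, gs 1 (ρ i)) *
        ∫⁻ r : ℂ, Lam r * ENNReal.ofReal (‖b‖ ^ 2) * g (∑ i, ρ i * a i + r * b) ≤
      ∫⁻ z : ℂ, Lam z * g z

/-- RUN: a unitary matrix sending `y` to `e_0`; invariance of Gaussian matrices. -/
def T_RUN : Prop :=
  ∀ (m : ℕ) (y : Fin (m + 1) → ℂ), nsq y = 1 →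
    ∃ U : Matrix (Fin (m + 1)) (Fin (m + 1)) ℂ, U * U.conjTranspose = 1 ∧
    U.conjTranspose * U = 1 ∧ U.mulVec y = Pi.single 0 1 ∧
    ∀ (n : ℕ) (f : (Fin n → Fin (m + 1) → ℂ) → ENNReal), Measurable f →
    ∫⁻ X : Fin n → Fin (m + 1) → ℂ, ENNReal.ofReal (∏ i, ∏ j, gs 1 (X i j)) *
        f (fun i j => ∑ l, X i l * U l j) =
      ∫⁻ X : Fin n → Fin (m + 1) → ℂ, ENNReal.ofReal (∏ i, ∏ j, gs 1 (X i j)) * f X

/-- RGC: Gaussian matrices applied to a unit vector. -/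
def T_RGC : Prop :=
  ∀ k s : ℕ, ∃ C : ENNReal, C ≠ ⊤ ∧ ∀ y : Fin (k + 1) → ℂ, nsq y = 1 →
    ∀ g : (Fin k → ℂ) → ENNReal, Measurable g →
    ∫⁻ X : Fin k → Fin (k + 1) → ℂ,
        ENNReal.ofReal ((∏ i, ∏ j, gs 1 (X i j)) * (∑ i, nsq (X i)) ^ s) *
          g (fun i => ∑ j, X i j * y j) ≤
      C * ∫⁻ w : Fin k → ℂ, ENNReal.ofReal (Real.exp (-nsq w) * (1 + nsq w) ^ s) * g w

/-- RGA: both. -/
def T_RGA : Prop :=
  ∀ k s : ℕ, ∃ C : ENNReal, C ≠ ⊤ ∧ ∀ j : Fin (k + 1), ∀ y : Fin (k + 1) → ℂ,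
    nsq y = 1 → ∀ g : (Fin (k + 1) → ℂ) → ENNReal, Measurable g →
    ∫⁻ X : Fin (k + 1) → Fin (k + 1) → ℂ,
        ENNReal.ofReal (gss X * (∑ i : Fin k, nsq (X i.succ)) ^ s) *
          ∫⁻ r : ℂ, Lam r * ENNReal.ofReal (‖y j‖ ^ 2) *
            g ((Matrix.of (rep (cut j X) 0 j r)).mulVec y) ≤
      C * ∫⁻ Y : Fin (k + 1) → ℂ, Lam (Y 0) *
        ENNReal.ofReal (Real.exp (-nsq (tl Y)) * (1 + nsq (tl Y)) ^ s) * g Y

/-- RSH: the logarithmic mass controls the Gaussian integral. -/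
def T_RSH : Prop :=
  ∀ k s q : ℕ, s + 1 + q = k → ∃ C : ℝ, 0 < C ∧ ∀ (S : Form (Fin (k + 1)) (s + 1)) (A : ℝ),
    0 ≤ A → ProjForm S → mass q S = mass q (om (k + 1) (s + 1)) → LM q S A →
    ∫⁻ Y : Fin (k + 1) → ℂ, Lam (Y 0) *
        ENNReal.ofReal (Real.exp (-nsq (tl Y)) * (1 + nsq (tl Y)) ^ s) *
        ENNReal.ofReal (trF (S Y)) ≤ ENNReal.ofReal (C * (1 + A))

/-- RMB: the mean of the masses over the disc, with the weight `Lam`. -/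
def T_RMB : Prop :=
  ∀ k s q : ℕ, s + 1 + q = k → ∃ C : ℝ, 0 < C ∧ ∀ (D : ℕ)
    (Φ : Fin (k + 1) → MvPolynomial (Fin (k + 1)) ℂ), 1 ≤ D → IsH D Φ →
    ∀ (v : Fin (q + 1) → (Fin (k + 1) → ℂ) → ℝ), (∀ l, Pot (v l)) →
    ∀ (S : Form (Fin (k + 1)) (s + 1)) (A : ℝ), 0 ≤ A → ProjForm S →
    mass q S = mass q (om (k + 1) (s + 1)) → LM q S A → ∀ j : Fin (k + 1), j ≠ 0 →
    ∫⁻ X : Fin (k + 1) → Fin (k + 1) → ℂ, ENNReal.ofReal (gss X) *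
        ∫⁻ r : ℂ, Lam r * ENNReal.ofReal (mT (pull
          (Pool.Agent.H14.EQ.GP Φ (cut j X) 0 j) S) (fun l z => v l (tl z)) r) ≤
      ENNReal.ofReal (C * (1 + A) * ((D : ℝ) ^ (s + 1) / D))

/-- RTK: testing against the heat potential. -/
def T_RTK : Prop :=
  ∀ (t1 : ℂ) (a m m' : ℂ → ℝ) (B : ℝ), t1 ≠ 0 → ContinuousOn a {t1}ᶜ →
    (∀ t, t ≠ t1 → |a t| ≤ B) → (∀ t, t ≠ t1 → 0 ≤ m t ∧ 0 ≤ m' t) →
    ContinuousOn m {t1}ᶜ → ContinuousOn m' {t1}ᶜ → Integrable m → Integrable m' →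
    Weak {t1}ᶜ a (fun t => m t - m' t) →
    ENNReal.ofReal |a 0 - ∫ t, gs 1 t * a t| ≤
      ∫⁻ t, Lam t * ENNReal.ofReal (m t) + ∫⁻ t, Lam t * ENNReal.ofReal (m' t)

/-- RTG: generic matrices, an entry of the row `0` moves. -/
def T_RTG : Prop :=
  ∀ (k : ℕ) (j : Fin (k + 1)), j ≠ 0 → ∀ᵐ X : Fin (k + 1) → Fin (k + 1) → ℂ,
    (Matrix.of (cut (j + 1) X)).det ≠ 0 ∧ (Matrix.of (cut j X)).det ≠ 0 ∧
    ∃ (t1 : ℂ) (C : ℝ), t1 ≠ 0 ∧ ∀ t, t ≠ t1 →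
      (Matrix.of (rep (cut j X) 0 j t)).det ≠ 0 ∧
      ∀ y : Fin (k + 1) → ℂ, y ≠ 0 →
        |ell ((Matrix.of (rep (cut j X) 0 j t)).mulVec y) - ell y| ≤
          ((k + 1 : ℕ) : ℝ) * |Real.log ‖t - t1‖| + C

/-- RFB: one entry of a Gaussian matrix. -/
def T_RFB : Prop :=
  ∀ (N : ℕ) (i j : Fin N) (f : (Fin N → Fin N → ℂ) → ℝ),
    Integrable (fun X : Fin N → Fin N → ℂ => gss X * f X) →
    Integrable (fun X : Fin N → Fin N → ℂ => gss X * ∫ r, gs 1 r * f (rep X i j r)) ∧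
    ∫ X : Fin N → Fin N → ℂ, gss X * f X =
      ∫ X : Fin N → Fin N → ℂ, gss X * ∫ r, gs 1 r * f (rep X i j r)

/-- RMV: one more entry of the row `0`. -/
def T_RMV : Prop :=
  ∀ k s q : ℕ, s + 1 + q = k → ∃ C : ℝ, 0 < C ∧ ∀ (D : ℕ)
    (Φ : Fin (k + 1) → MvPolynomial (Fin (k + 1)) ℂ), 1 ≤ D → IsH D Φ →
    ∀ (w w' : (Fin (k + 1) → ℂ) → ℝ) (u : Fin q → (Fin (k + 1) → ℂ) → ℝ), Pot w → Pot w' →
    (∀ l, Pot (u l)) → ∀ (S : Form (Fin (k + 1)) (s + 1)) (A : ℝ), 0 ≤ A → ProjForm S →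
    mass q S = mass q (om (k + 1) (s + 1)) → LM q S A → ∀ j : Fin (k + 1), j ≠ 0 →
    |(∫ X : Fin (k + 1) → Fin (k + 1) → ℂ,
        gss X * am (fun z => w z - w' z) Φ S u (Matrix.of (cut (j + 1) X))) -
      ∫ X : Fin (k + 1) → Fin (k + 1) → ℂ,
        gss X * am (fun z => w z - w' z) Φ S u (Matrix.of (cut j X))| ≤
      C * (1 + A) * ((D : ℝ) ^ (s + 1) / D)

/-- RZ: the block R. -/
def T_RZ : Prop := ∀ k p q : ℕ, p + q = k → MeanE k p q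

end

end Pool.Agent.H92.EHD
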