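import Pool.Agent.H92.EHD.Defs

/-!
Board ehd_modules (MP_75a732_an), blocks L, T and K.
-/

namespace Pool.Agent.H92.EHD

open scoped BigOperators ComplexConjugate ContDiff ComplexOrder
open MeasureTheory Pool.Agent.H92.EQ

noncomputable section

/-! ### Block L -/

/-- ELD: the lifted vector field (as LD). -/
def T_ELD : Prop :=
  ∀ (k : ℕ), ∃ c : ℝ, 0 < c ∧ ∀ (P A : Matrix (Fin (k + 1)) (Fin (k + 1)) ℂ)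
    (y : Fin (k + 1) → ℂ) (M ρ τ s : ℝ),
    1 ≤ M → 0 < ρ → ρ ≤ 1 → 0 ≤ τ → τ ≤ 1 / (2 * (k + 1)) → 0 ≤ s → s ≤ 1 → y ≠ 0 →
    (∀ j, A 0 j = (1 : Matrix (Fin (k + 1)) (Fin (k + 1)) ℂ) 0 j) →
    (∀ j : Fin k, P 0 j.succ = 0) →
    (∀ i j, ‖A i j - (1 : Matrix (Fin (k + 1)) (Fin (k + 1)) ℂ) i j‖ ≤ τ) →
    (∀ i j, ‖P i j‖ ≤ M * nrm y) → ρ * nrm y ^ k ≤ ‖(low P).det‖ →
    (1 + (s : ℂ) • (A - 1)).det ≠ 0 ∧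
    ∃ ξ : Fin (k + 1) → ℂ, ((1 + (s : ℂ) • (A - 1)) * P).mulVec ξ = (A - 1).mulVec y ∧
      nrm ξ ≤ c * M ^ k / ρ * τ

/-- ELE: the block L (as LE). -/
def T_ELE : Prop := ∀ k p q, LocLipE k p q

/-! ### Block T -/

/-- ETG: one entry moves, the row `0` is `X_00 e_0`. -/
def T_ETG : Prop :=
  ∀ (k : ℕ) (i j : Fin (k + 1)), (i ≠ 0 ∨ j = 0) → ∀ᵐ X : Fin (k + 1) → Fin (k + 1) → ℂ,
    (Matrix.of (cut 1 X)).det ≠ 0 ∧ ∃ (t1 : ℂ) (C : ℝ), ∀ t, t ≠ t1 →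
      (Matrix.of (rep (cut 1 X) i j t)).det ≠ 0 ∧
      ∀ y : Fin (k + 1) → ℂ, y ≠ 0 →
        |ell ((Matrix.of (rep (cut 1 X) i j t)).mulVec y) - ell y| ≤
          ((k + 1 : ℕ) : ℝ) * |Real.log ‖t - t1‖| + C

/-- ETI: the Laplacian of `a(t)` (as TI, weaker hypotheses, explicit densities). -/
def T_ETI : Prop :=
  ∀ (N p q D : ℕ) (Φ : Fin N → MvPolynomial (Fin N) ℂ) (S : Form (Fin N) p)
    (w w' : (Fin N → ℂ) → ℝ) (u : Fin q → (Fin N → ℂ) → ℝ) (X : Fin N → Fin N → ℂ)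
    (i j : Fin N) (t1 : ℂ) (C0 : ℝ), p + q + 1 = N → 1 ≤ D → IsH D Φ → ProjForm S → Pot w →
    Pot w' → (∀ j, Pot (u j)) →
    (∀ t, t ≠ t1 → (Matrix.of (rep X i j t)).det ≠ 0) →
    (∀ t, t ≠ t1 → ∀ y : Fin N → ℂ, y ≠ 0 →
      |ell ((Matrix.of (rep X i j t)).mulVec y) - ell y| ≤ N * |Real.log ‖t - t1‖| + C0) →
    ∀ m m' : ℂ → ℝ,
      m = mT (pull (Pool.Agent.H14.EQ.GP Φ X i j) S)
        (fun l z => (Fin.cons w u : Fin (q + 1) → (Fin N → ℂ) → ℝ) l (tl z)) →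
      m' = mT (pull (Pool.Agent.H14.EQ.GP Φ X i j) S)
        (fun l z => (Fin.cons w' u : Fin (q + 1) → (Fin N → ℂ) → ℝ) l (tl z)) →
    ∃ F F' : ℂ → ℝ, ∃ C : ℝ,
      (∀ t, t ≠ t1 → 0 ≤ m t ∧ 0 ≤ m' t) ∧ ContinuousOn m {t1}ᶜ ∧ ContinuousOn m' {t1}ᶜ ∧
      ContinuousOn F {t1}ᶜ ∧ ContinuousOn F' {t1}ᶜ ∧
      (∀ t, t ≠ t1 → |F t| ≤ (q + 1) * N * ((D : ℝ) ^ p / D) * mass q S *
        |Real.log ‖t - t1‖| + C) ∧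
      (∀ t, t ≠ t1 → |F' t| ≤ (q + 1) * N * ((D : ℝ) ^ p / D) * mass q S *
        |Real.log ‖t - t1‖| + C) ∧
      Weak {t1}ᶜ F m ∧ Weak {t1}ᶜ F' m' ∧
      ContinuousOn (fun t => am (fun z => w z - w' z) Φ S u (Matrix.of (rep X i j t))) {t1}ᶜ ∧
      Weak {t1}ᶜ (fun t => am (fun z => w z - w' z) Φ S u (Matrix.of (rep X i j t)))
        (fun t => m t - m' t)

/-- ETZ: the block T (as TZ). -/
def T_ETZ : Prop := ∀ k p q, TGaussE k p q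

/-! ### Block K -/

/-- EKB: the lower Jacobian (as KB). -/
def T_EKB : Prop :=
  ∀ (k d : ℕ) (F : Fin (k + 1) → MvPolynomial (Fin (k + 1)) ℂ), 0 < k → 2 ≤ d → IsE d F →
    lowP F ≠ 0 ∧ (lowP F).IsHomogeneous (k * (d - 1)) ∧ 1 ≤ k * (d - 1) ∧
    ¬ MvPolynomial.X 0 ∣ lowP F ∧
    (∀ z, MvPolynomial.eval z (lowP F) = (low (jac F z)).det) ∧
    (∃ C : ℝ, 1 ≤ C ∧ ∀ z, z ≠ 0 → nv (lowP F) (k * (d - 1)) z ≤ C) ∧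
    (∀ ε : ℝ, 0 < ε → Pot (we (lowP F) (k * (d - 1)) ε) ∧ ∀ z, z ≠ 0 →
      (k * (d - 1) : ℕ) * (we (lowP F) (k * (d - 1)) ε z - ell z) =
        (1 / 2) * Real.log (nv (lowP F) (k * (d - 1)) z ^ 2 + ε ^ 2)) ∧
    (∀ n, IsE (d ^ n) (iter F n))

/-- EKL: lower bound of the relative lower Jacobian (as KL). -/
def T_EKL : Prop :=
  ∀ (k d : ℕ) (F : Fin (k + 1) → MvPolynomial (Fin (k + 1)) ℂ), 0 < k → 2 ≤ d → IsE d F →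
    ∃ c : ℝ, 0 < c ∧ c ≤ 1 ∧ ∀ (n : ℕ) (x : Fin (k + 1) → ℂ), x ≠ 0 →
      c ^ n * ∏ m ∈ Finset.range n, nv (lowP F) (k * (d - 1)) (ev (iter F m) x) ≤
        relL (iter F n) x

/-- EKJ: the cutoff (as KJ). -/
def T_EKJ : Prop :=
  ∀ (k d : ℕ) (F : Fin (k + 1) → MvPolynomial (Fin (k + 1)) ℂ), 0 < k → 2 ≤ d → IsE d F →
    ∃ K : ℝ, 1 ≤ K ∧ ∀ (n : ℕ) (ρ : ℝ), 0 < ρ → ρ ≤ 1 → ∃ κ : (Fin (k + 1) → ℂ) → ℝ,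
    Hom0 κ ∧ (∀ x, x ≠ 0 → 0 ≤ κ x ∧ κ x ≤ 1) ∧
    (∀ x, x ≠ 0 → 2 * ρ ≤ relL (iter F n) x → κ x = 1) ∧
    (∀ x, nrm x = 1 → ∀ a, ‖wd a (fun w => (κ w : ℂ)) x‖ ≤ K ^ (n + 1) / ρ ^ 2) ∧
    (∀ x, nrm x = 1 → ∀ i a,
      ‖jac (iter F n) x i a‖ ≤ K ^ (n + 1) * nrm (ev (iter F n) x)) ∧
    (∀ x, nrm x = 1 → ∀ i a b,
      ‖MvPolynomial.eval x (MvPolynomial.pderiv b (MvPolynomial.pderiv a (iter F n i)))‖ ≤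
        K ^ (n + 1) * nrm (ev (iter F n) x)) ∧
    (∀ x, nrm x = 1 → κ x ≠ 0 →
      ρ * nrm (ev (iter F n) x) ^ k ≤ ‖(low (jac (iter F n) x)).det‖)

/-- EWH: the potentials of the hyperplane. -/
def T_EWH : Prop :=
  ∀ (k d : ℕ) (F : Fin (k + 1) → MvPolynomial (Fin (k + 1)) ℂ), 2 ≤ d → IsE d F →
    (∀ δ : ℝ, 0 < δ → Pot (wH (k := k) δ)) ∧
    (∀ δ : ℝ, 0 < δ → δ ≤ 1 → ∀ z : Fin (k + 1) → ℂ, z ≠ 0 → -1 ≤ ell z - wH δ z) ∧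
    (∀ (δ : ℝ) (n : ℕ), 0 < δ → Pot (fun z => (1 / (d : ℝ) ^ n) * wH δ (ev (iter F n) z))) ∧
    ∃ B : ℝ, 0 < B ∧
      (∀ δ : ℝ, 0 < δ → δ ≤ 1 → ∀ n : ℕ, ∃ δ' : ℝ, 0 < δ' ∧ δ' ≤ 1 ∧
        ∀ z : Fin (k + 1) → ℂ, z ≠ 0 →
          |wH δ z - (1 / (d : ℝ) ^ n) * wH δ' (ev (iter F n) z)| ≤ B) ∧
      (∀ δ : ℝ, 0 < δ → δ ≤ 1 → ∀ n : ℕ, ∀ z : Fin (k + 1) → ℂ, z ≠ 0 →
        |(1 / (d : ℝ) ^ n) * wH δ (ev (iter F n) z) - wH (δ ^ (1 / (d : ℝ) ^ n)) z| ≤ B)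

/-- EPB: pull-back of a pairing with the Green potentials. -/
def T_EPB : Prop :=
  ∀ (N d p q i : ℕ) (F : Fin N → MvPolynomial (Fin N) ℂ) (S : Form (Fin N) p)
    (f : (Fin N → ℂ) → ℝ), 2 ≤ d → p + q + 1 = N → IsH d F → ProjForm S → Hom0 f →
    pair (fun z => f (ev (iter F i) z)) (Sn F d i S) (fun _ : Fin q => Gn F d i) =
      pair f S (fun _ : Fin q => ell)

/-- EKI: the last term (as KI2; `Hit` for the lower Jacobian). -/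
def T_EKI : Prop :=
  ∀ (k d p q m i : ℕ) (F : Fin (k + 1) → MvPolynomial (Fin (k + 1)) ℂ)
    (K : Set (Fin (k + 1) → ℂ)) (S : Form (Fin (k + 1)) p) (f : (Fin (k + 1) → ℂ) → ℝ)
    (h r a b : ℝ), 2 ≤ d → p + q = k → IsE d F → ProjForm S → InK K S →
    mass q S = mass q (om (k + 1) p) → Hom0 f → 0 ≤ h → 0 ≤ a → 0 ≤ b → HitL F d K i r h →
    (∀ z, z ≠ 0 → f z ≤ a + b) → (∀ z, z ≠ 0 → z ∉ CrL F d r → f z ≤ b) →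
    pair (fun z => f (ev (iter F m) z)) (Sn F d (i + m) S) (fun _ : Fin q => Gn F d (i + m)) ≤
      (a * h + b) * mass q (om (k + 1) p)

/-- EMA: the logarithmic mass of `S_i`. -/
def T_EMA : Prop :=
  ∀ (k d p q : ℕ) (F : Fin (k + 1) → MvPolynomial (Fin (k + 1)) ℂ), 2 ≤ d → p + q = k →
    IsE d F → ∃ C : ℝ, 0 < C ∧ ∀ (K : Set (Fin (k + 1) → ℂ)) (i : ℕ) (A : ℝ)
    (S : Form (Fin (k + 1)) p), 0 ≤ A → Cls K q A S →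
    Cls (ev (iter F i) ⁻¹' K) q (A / (d : ℝ) ^ i + C) (Sn F d i S)

/-- EMB: the logarithmic mass of `S_i ∧ dd^c w_ε`. -/
def T_EMB : Prop :=
  ∀ (k d p q : ℕ) (F : Fin (k + 1) → MvPolynomial (Fin (k + 1)) ℂ), 2 ≤ d → p + (q + 1) = k →
    IsE d F → ∃ C : ℝ, 0 < C ∧ ∀ (K : Set (Fin (k + 1) → ℂ)) (i : ℕ) (A r h ε : ℝ)
    (S : Form (Fin (k + 1)) p), 0 ≤ A → 0 ≤ h → 0 < r → r ≤ 1 → 0 < ε → ε ≤ 1 →
    HitL F d K i r h → Cls K (q + 1) A S →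
    Cls (ev (iter F i) ⁻¹' K) q (A / (d : ℝ) ^ i + C + Real.log (1 / r) + h * Real.log (1 / ε))
      (fun z => wedge (Sn F d i S z) (hessR (we (lowP F) (k * (d - 1)) ε) z)) ∧
    Cls (ev (iter F i) ⁻¹' K) q (A / (d : ℝ) ^ i + C)
      (fun z => wedge (Sn F d i S z) (hessR ell z))

/-- EKF: uniform smallness in codimension `p` (as KF2). -/
def T_EKF : Prop :=
  ∀ (k d p q : ℕ) (F : Fin (k + 1) → MvPolynomial (Fin (k + 1)) ℂ)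
    (𝒦 : Set (Set (Fin (k + 1) → ℂ))), 2 ≤ d → p + q = k → IsE d F → ConvE F d p 𝒦 →
    ∀ η : ℝ, 0 < η → ∃ a : ℝ, 0 < a ∧ ∀ K ∈ 𝒦, ∃ m0 : ℕ, ∀ m ≥ m0, ∀ n ≥ m, ∀ j : ℕ,
    ∀ R R' : Form (Fin (k + 1)) p, Cls K q (a * (d : ℝ) ^ m) R →
    Cls K q (a * (d : ℝ) ^ m) R' →
    |pair (fun z => Gn F d n z - ell z) (Sn F d m R)
        (fun l : Fin q => if (l : ℕ) < j then Gn F d n else ell) -
      pair (fun z => Gn F d n z - ell z) (Sn F d m R')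
        (fun l : Fin q => if (l : ℕ) < j then Gn F d n else ell)| ≤ η

/-- EK1: the key estimate, crude form (as KEY1K). -/
def T_EK1 : Prop :=
  ∀ (k d p q : ℕ) (F : Fin (k + 1) → MvPolynomial (Fin (k + 1)) ℂ), 0 < k → 2 ≤ d →
    p + q = k → IsE d F → ∃ C : ℝ, 0 < C ∧ ∀ (K : Set (Fin (k + 1) → ℂ)) (n i : ℕ)
    (δ r h : ℝ) (S : Form (Fin (k + 1)) p), i ≤ n → 0 < δ → 0 < r →
    r ≤ 1 → 0 ≤ h → HitL F d K i r h → ProjForm S → InK K S →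
    mass q S = mass q (om (k + 1) p) →
    betaL F d n i q (Real.exp (-(δ * (d : ℝ) ^ n))) S ≤
      (2 * h + C / (δ * (d : ℝ) ^ i) + (2 * Real.log (1 / r) + C) / (δ * (d : ℝ) ^ n)) *
        mass q (om (k + 1) p)

/-- EK2: the key estimate for a fixed level `i1 + l` (as KEY2K; `a`, `h0` do not depend on
`K`, `i1`). -/
def T_EK2 : Prop :=
  ∀ (k d p q : ℕ) (F : Fin (k + 1) → MvPolynomial (Fin (k + 1)) ℂ)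
    (𝒦 : Set (Set (Fin (k + 1) → ℂ))), 0 < k → 2 ≤ d → p + q = k → IsE d F → StK F 𝒦 →
    ConvE F d (p + 1) 𝒦 → ∀ (l : ℕ) (δ η : ℝ), 0 < δ → 0 < η →
    ∃ a h0 : ℝ, 0 < a ∧ 0 < h0 ∧ ∀ K ∈ 𝒦, ∀ i1 : ℕ, ∃ n0 : ℕ, i1 + l ≤ n0 ∧ ∀ n ≥ n0,
    ∀ (h : ℝ) (S : Form (Fin (k + 1)) p), 0 ≤ h → h ≤ h0 →
    HitL F d K (i1 + l) (Real.exp (-((d : ℝ) ^ n / (n : ℝ) ^ 4))) h →
    Cls K q (a * (d : ℝ) ^ n) S →
    betaL F d n (i1 + l) q (Real.exp (-(δ * (d : ℝ) ^ (n - i1)))) S ≤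
      (2 * h + η) * mass q (om (k + 1) p)

/-- EKS: summation over the levels (as KS2). -/
def T_EKS : Prop :=
  ∀ (k d p q : ℕ) (F : Fin (k + 1) → MvPolynomial (Fin (k + 1)) ℂ)
    (𝒦 : Set (Set (Fin (k + 1) → ℂ))), 0 < k → 2 ≤ d → p + q = k → IsE d F → StK F 𝒦 →
    ConvE F d (p + 1) 𝒦 → (∀ K ∈ 𝒦, PMainE F d K) → ∀ η δ : ℝ, 0 < η → 0 < δ →
    ∃ a : ℝ, 0 < a ∧ ∀ K ∈ 𝒦, ∃ i1 n0 : ℕ, i1 ≤ n0 ∧ ∀ n ≥ n0,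
    ∀ S : Form (Fin (k + 1)) p, Cls K q (a * (d : ℝ) ^ n) S →
    ∑ l ∈ Finset.Icc 1 (n - i1),
      betaL F d n (i1 + l) q (Real.exp (-(δ / (l : ℝ) ^ 2 * (d : ℝ) ^ (n - i1)))) S ≤
      η * mass q (om (k + 1) p)

/-- EKN: local constancy (as KN2). -/
def T_EKN : Prop :=
  ∀ (k d p : ℕ) (F : Fin (k + 1) → MvPolynomial (Fin (k + 1)) ℂ)
    (𝒦 : Set (Set (Fin (k + 1) → ℂ))), 0 < k → 2 ≤ d → p ≤ k → IsE d F → StK F 𝒦 →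
    ConvE F d (p + 1) 𝒦 → (∀ K ∈ 𝒦, PMainE F d K) → (∀ q, LocLipE k p q) → CstE F d p 𝒦

/-- EKO: the mean (as KO2). -/
def T_EKO : Prop :=
  ∀ (k d p : ℕ) (F : Fin (k + 1) → MvPolynomial (Fin (k + 1)) ℂ)
    (𝒦 : Set (Set (Fin (k + 1) → ℂ))), 0 < k → 2 ≤ d → p ≤ k → IsE d F → CstE F d p 𝒦 →
    (∀ q, TGaussE k p q) → (∀ q, MeanE k p q) → ConvE F d p 𝒦

/-- EKZ: the theorem, given the block P (as KZ2). -/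
def T_EKZ : Prop :=
  ∀ (k d p : ℕ) (F : Fin (k + 1) → MvPolynomial (Fin (k + 1)) ℂ)
    (𝒦 : Set (Set (Fin (k + 1) → ℂ))), 0 < k → 2 ≤ d → IsE d F → StK F 𝒦 →
    (∀ K ∈ 𝒦, PMainE F d K) → ConvE F d p 𝒦

end

end Pool.Agent.H92.EHD
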