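import Pool.Agent.H92.EHD.TR

/-!
Board ehd_modules (MP_75a732_an), block R: the estimate RTK with the intended parentheses.
-/

namespace Pool.Agent.H92.EHD

open scoped BigOperators ComplexConjugate ContDiff ComplexOrder
open MeasureTheory Pool.Agent.H92.EQ

noncomputable section

/-- RTK2: the heat potential estimate of one entry (the form RMV uses). -/
def T_RTK2 : Prop :=
  ∀ (t1 : ℂ) (a m m' : ℂ → ℝ) (B : ℝ), t1 ≠ 0 → ContinuousOn a {t1}ᶜ →
    (∀ t, t ≠ t1 → |a t| ≤ B) → (∀ t, t ≠ t1 → 0 ≤ m t ∧ 0 ≤ m' t) →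
    ContinuousOn m {t1}ᶜ → ContinuousOn m' {t1}ᶜ → Integrable m → Integrable m' →
    Weak {t1}ᶜ a (fun t => m t - m' t) →
    ENNReal.ofReal |a 0 - ∫ t, gs 1 t * a t| ≤
      (∫⁻ t, Lam t * ENNReal.ofReal (m t)) + (∫⁻ t, Lam t * ENNReal.ofReal (m' t))

end

end Pool.Agent.H92.EHD
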