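import Pool.Agent.H92.EQ.AllF
import Pool.Agent.H92.EQ.AllP
import Pool.Agent.H92.EHD.TR2
import Pool.Agent.H1.EHD.RZ
import Pool.Agent.H10.EHD.EKJ
import Pool.Agent.H10.EHD.EPC
import Pool.Agent.H11.EHD.EPR
import Pool.Agent.H13.EHD.EPA
import Pool.Agent.H14.EHD.EAW
import Pool.Agent.H14.EHD.EKB
import Pool.Agent.H20.EHD.EG2
import Pool.Agent.H20.EHD.EPG
import Pool.Agent.H25.EHD.EKI
import Pool.Agent.H25.EHD.EPD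
import Pool.Agent.H26.EHD.EA4
import Pool.Agent.H26.EHD.RLA
import Pool.Agent.H29.EHD.RUN
import Pool.Agent.H33.EHD.RMB
import Pool.Agent.H33.EHD.RMV
import Pool.Agent.H37.EHD.EKZ
import Pool.Agent.H37.EHD.EMA
import Pool.Agent.H38.EHD.EA1
import Pool.Agent.H38.EHD.EKS
import Pool.Agent.H4.EHD.EPL
import Pool.Agent.H42.EHD.EPZ
import Pool.Agent.H42.EHD.RTK
import Pool.Agent.H43.EHD.EKN
import Pool.Agent.H43.EHD.EMB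
import Pool.Agent.H43.EHD.EPE
import Pool.Agent.H46.EHD.EPF
import Pool.Agent.H51.EHD.RW
import Pool.Agent.H53.EHD.ELD
import Pool.Agent.H53.EHD.ETI
import Pool.Agent.H55.EHD.EKF
import Pool.Agent.H57.EHD.EA2
import Pool.Agent.H57.EHD.EFI
import Pool.Agent.H57.EHD.EPB
import Pool.Agent.H60.EHD.EG1
import Pool.Agent.H65.EHD.EK1
import Pool.Agent.H65.EHD.ELE
import Pool.Agent.H67.EHD.EPM
import Pool.Agent.H67.EHD.EPN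
import Pool.Agent.H69.EHD.RFB
import Pool.Agent.H69.EHD.RGB
import Pool.Agent.H74.EHD.RSH
import Pool.Agent.H76.EHD.EWH
import Pool.Agent.H79.EHD.EA5
import Pool.Agent.H80.EHD.EA3
import Pool.Agent.H85.EHD.EK2
import Pool.Agent.H85.EHD.EKO
import Pool.Agent.H90.EHD.ETZ
import Pool.Agent.H95.EHD.EG0
import Pool.Agent.H95.EHD.EKL
import Pool.Agent.H95.EHD.ETG
import Pool.Agent.H95.EHD.RPD
import Pool.Agent.H95.EHD.RTG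
import Pool.Agent.H96.EHD.RDO
import Pool.Agent.H96.EHD.RGA
import Pool.Agent.H96.EHD.RGC
import Pool.Agent.H97.EHD.RDA
import Pool.Agent.H97.EHD.RTR

/-!
Assembly of the board ehd_modules (MP_75a732_an).
-/

namespace Pool.Agent.H92.EHD.All

open Pool.Agent.H92.EQ Pool.Agent.H92.EHD Pool.Agent.H92.EQ.All

theorem a_EA1 : Pool.Agent.H92.EHD.T_EA1 := Pool.Agent.H38.EHD.pf_EA1 a_D10 a_A9 a_A1

theorem a_RUN : Pool.Agent.H92.EHD.T_RUN := Pool.Agent.H29.EHD.pf_RUN 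

theorem a_EA2 : Pool.Agent.H92.EHD.T_EA2 := Pool.Agent.H57.EHD.pf_EA2 a_RUN

theorem a_EA3 : Pool.Agent.H92.EHD.T_EA3 := Pool.Agent.H80.EHD.pf_EA3 a_L5 a_D6 a_D7 a_W9 a_W7 a_A6 a_IE a_S5

theorem a_EA4 : Pool.Agent.H92.EHD.T_EA4 := Pool.Agent.H26.EHD.EA4.pf_EA4 

theorem a_EA5 : Pool.Agent.H92.EHD.T_EA5 := Pool.Agent.H79.EHD.pf_EA5 a_EA2 a_EA4 a_S5

theorem a_EAW : Pool.Agent.H92.EHD.T_EAW := Pool.Agent.H14.EHD.pf_EAW a_D11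

theorem a_EKB : Pool.Agent.H92.EHD.T_EKB := Pool.Agent.H14.EHD.pf_EKB a_KB a_L5 a_L6 a_D12

theorem a_EKI : Pool.Agent.H92.EHD.T_EKI := Pool.Agent.H25.EHD.pf_EKI a_KG2 a_G4 a_KA a_KH a_D12 a_P1 a_P3 a_P5 a_D7 a_L3 a_L6

theorem a_EK1 : Pool.Agent.H92.EHD.T_EK1 := Pool.Agent.H65.EHD.pf_EK1 a_KA a_EKB a_KE a_EKI a_P1 a_P3 a_P5 a_L1 a_L3 a_D12

theorem a_EKF : Pool.Agent.H92.EHD.T_EKF := Pool.Agent.H55.EHD.pf_EKF a_KA a_P1 a_P3 a_P5 a_P7 a_D12 a_L3 a_D7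

theorem a_EWH : Pool.Agent.H92.EHD.T_EWH := Pool.Agent.H76.EHD.pf_EWH a_L3 a_L5 a_D12 a_KA

theorem a_EPB : Pool.Agent.H92.EHD.T_EPB := Pool.Agent.H57.EHD.pf_EPB a_G4 a_D12 a_L3 a_L6

theorem a_EMA : Pool.Agent.H92.EHD.T_EMA := Pool.Agent.H37.EHD.pf_EMA a_EWH a_EPB a_KA a_KE a_KG2 a_D12 a_P1 a_P3 a_P5 a_L1 a_L3

theorem a_EMB : Pool.Agent.H92.EHD.T_EMB := Pool.Agent.H43.EHD.pf_EMB a_EWH a_EKI a_EKB a_EMA a_KA a_KE a_KD a_KH a_KG2 a_P1 a_P3 a_P6 a_P7 a_D6 a_D7 a_L1 a_L3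

theorem a_EK2 : Pool.Agent.H92.EHD.T_EK2 := Pool.Agent.H85.EHD.EK2row.pf_EK2 a_KA a_EKB a_KE2 a_EKF a_EMA a_EMB a_KG2 a_KH a_EKI a_P1 a_P3 a_P5 a_L1 a_L3 a_D7 a_D12

theorem a_EKS : Pool.Agent.H92.EHD.T_EKS := Pool.Agent.H38.EHD.pf_EKS a_EK1 a_EK2 a_D7

theorem a_EKJ : Pool.Agent.H92.EHD.T_EKJ := Pool.Agent.H10.EHD.pf_EKJ a_L6 a_L1 a_L2 a_W6 a_W2 a_W1 a_W3 a_W7 a_D12

theorem a_EKL : Pool.Agent.H92.EHD.T_EKL := Pool.Agent.H95.EHD.pf_EKL a_EKB a_D12 a_L6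

theorem a_EKN : Pool.Agent.H92.EHD.T_EKN := Pool.Agent.H43.EHD.pf_EKN a_EKS a_EKJ a_EKL a_KM a_P4 a_D12 a_L6 a_P5 a_D7 a_P1 a_P3 a_L1 a_L2 a_L3 a_W6 a_W1

theorem a_EKO : Pool.Agent.H92.EHD.T_EKO := Pool.Agent.H85.EHD.pf_EKO a_EMA a_KP2 a_L3 a_L6 a_TH a_TN a_IA a_P1 a_L1 a_P3 a_P5 a_D7 a_D12

theorem a_ETG : Pool.Agent.H92.EHD.T_ETG := Pool.Agent.H95.EHD.pf_ETG a_TG a_TH

theorem a_ETI : Pool.Agent.H92.EHD.T_ETI := Pool.Agent.H53.EHD.pf_ETI a_W6 a_A1 a_TB a_TC a_TD a_TF a_TN a_L1 a_L3 a_L6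

theorem a_ETZ : Pool.Agent.H92.EHD.T_ETZ := Pool.Agent.H90.EHD.pf_ETZ a_ETG a_ETI a_TJ a_TK a_TL a_TM a_TN a_L1 a_L6

theorem a_RW : Pool.Agent.H92.EHD.T_RW := Pool.Agent.H51.EHD.pf_RW a_A3 a_A11 a_W9

theorem a_RPD : Pool.Agent.H92.EHD.T_RPD := Pool.Agent.H95.EHD.pf_RPD 

theorem a_RDA : Pool.Agent.H92.EHD.T_RDA := Pool.Agent.H97.EHD.pf_RDA a_W9

theorem a_RDO : Pool.Agent.H92.EHD.T_RDO := Pool.Agent.H96.EHD.pf_RDO a_RDA a_D2 a_A1 a_A4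

theorem a_RLA : Pool.Agent.H92.EHD.T_RLA := Pool.Agent.H26.EHD.pf_RLA 

theorem a_RGB : Pool.Agent.H92.EHD.T_RGB := Pool.Agent.H69.EHD.pf_RGB a_RLA

theorem a_RGC : Pool.Agent.H92.EHD.T_RGC := Pool.Agent.H96.EHD.pf_RGC a_RUN

theorem a_RGA : Pool.Agent.H92.EHD.T_RGA := Pool.Agent.H96.EHD.pf_RGA a_RGB a_RGC a_RLA

theorem a_RTR : Pool.Agent.H92.EHD.T_RTR := Pool.Agent.H97.EHD.pf_RTR a_W9 a_A1 a_A2 a_A7 a_A10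

theorem a_RSH : Pool.Agent.H92.EHD.T_RSH := Pool.Agent.H74.EHD.pf_RSH a_RTR a_RLA a_S4 a_S5 a_P1 a_P2 a_D7 a_W9 a_L3

theorem a_RTG : Pool.Agent.H92.EHD.T_RTG := Pool.Agent.H95.EHD.pf_RTG a_TG a_TH

theorem a_RFB : Pool.Agent.H92.EHD.T_RFB := Pool.Agent.H69.EHD.pf_RFB 

theorem a_RMV : Pool.Agent.H92.EHD.T_RMV := Pool.Agent.H33.EHD.pf_RMV a_RW a_RPD a_RDO a_RGA a_RSH a_RTG a_RLA a_P1 a_P3 a_P5 a_S5 a_D5 a_D7 a_L1 a_RFB a_ETI a_TJ a_TN a_L6 a_IA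

theorem a_RZ : Pool.Agent.H92.EHD.T_RZ := Pool.Agent.H1.EHD.pf_RZ a_RMV a_IZ a_D7 a_L1 a_IA a_RTG a_W0

theorem a_ELD : Pool.Agent.H92.EHD.T_ELD := Pool.Agent.H53.EHD.pf_ELD 

theorem a_ELE : Pool.Agent.H92.EHD.T_ELE := Pool.Agent.H65.EHD.pf_ELE a_ELD a_A1 a_LA a_LB a_LC a_TB a_TN a_L2 a_L6 a_A13b a_P3 a_P4 a_P5 a_S5 a_W6 a_W9 a_D8 a_D11 a_D13

theorem a_EKZ : Pool.Agent.H92.EHD.T_EKZ := Pool.Agent.H37.EHD.pf_EKZ a_EKN a_EKO a_ETZ a_RZ a_ELE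

theorem a_EPM : Pool.Agent.H92.EHD.T_EPM := Pool.Agent.H67.EHD.pf_EPM a_PNM

theorem a_EPN : Pool.Agent.H92.EHD.T_EPN := Pool.Agent.H67.EHD.pf_EPN a_EPM a_EKB

theorem a_EPA : Pool.Agent.H92.EHD.T_EPA := Pool.Agent.H13.EHD.pf_EPA a_EA1 a_EA3 a_EA5 a_P1 a_P3 a_S5 a_TH a_D5 a_D8 a_D11

theorem a_EG0 : Pool.Agent.H92.EHD.T_EG0 := Pool.Agent.H95.EHD.pf_EG0 

theorem a_EG1 : Pool.Agent.H92.EHD.T_EG1 := Pool.Agent.H60.EHD.pf_EG1 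

theorem a_EG2 : Pool.Agent.H92.EHD.T_EG2 := Pool.Agent.H20.EHD.pf_EG2 a_EG0 a_EG1

theorem a_EPG : Pool.Agent.H92.EHD.T_EPG := Pool.Agent.H20.EHD.pf_EPG a_EG2 a_EA3 a_P1 a_P3 a_S5 a_L6

theorem a_EPL : Pool.Agent.H92.EHD.T_EPL := Pool.Agent.H4.EHD.pf_EPL a_EPG a_EWH a_KA a_KE a_KH a_P6 a_P7 a_D7 a_L3 a_L5 a_P1 a_P3 a_L6 a_L1

theorem a_EPR : Pool.Agent.H92.EHD.T_EPR := Pool.Agent.H11.EHD.pf_EPR a_EKL a_EKB a_D11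

theorem a_EPF : Pool.Agent.H92.EHD.T_EPF := Pool.Agent.H46.EHD.pf_EPF a_EPA a_EPL a_EPR a_PBD a_PVI a_KJ a_EKB a_TN a_TH a_D5 a_D6 a_D7 a_D8 a_D12 a_D13 a_L3 a_L5 a_L6 a_P1 a_P3 a_P5 a_P6 a_PDE

theorem a_EPD : Pool.Agent.H92.EHD.T_EPD := Pool.Agent.H25.EHD.pf_EPD a_PCH a_D12

theorem a_EPC : Pool.Agent.H92.EHD.T_EPC := Pool.Agent.H10.EHD.pf_EPC a_EPM a_EPD a_PMK a_PDE a_PVI a_PLC a_PSA a_D12 a_P1 a_P3 a_P5 a_L1 a_L6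

theorem a_EPE : Pool.Agent.H92.EHD.T_EPE := Pool.Agent.H43.EHD.pf_EPE a_PSA a_PMK a_PDE a_PVI a_D12 a_KG2 a_P1 a_L1

theorem a_EPZ : Pool.Agent.H92.EHD.T_EPZ := Pool.Agent.H42.EHD.pf_EPZ a_EPN a_EPF a_EPC a_EPE a_EPR a_PVI a_PMK a_EKB a_P1 a_P3 a_D12

theorem a_EFI : Pool.Agent.H92.EHD.T_EFI := Pool.Agent.H57.EHD.pf_EFI a_EKZ a_EAW a_EPZ a_ELE a_ETZ a_KP2

theorem a_RMB : Pool.Agent.H92.EHD.T_RMB := Pool.Agent.H33.EHD.pf_RMB a_RW a_RPD a_RDO a_RGA a_RSH a_RTG a_RLA a_P1 a_P3 a_P5 a_S5 a_D5 a_D7 a_L1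

theorem a_RTK : Pool.Agent.H92.EHD.T_RTK := Pool.Agent.H42.EHD.pf_RTK 

theorem a_RTK2 : Pool.Agent.H92.EHD.T_RTK2 := Pool.Agent.H42.EHD.rtk 

end Pool.Agent.H92.EHD.All
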