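import Pool.Agent.H92.EQ.TP
import Pool.Agent.H14.EQ.TIp

/-!
Board ehd_modules (MP_75a732_an): equidistribution when the supports meet a totally invariant
hyperplane `H = {z_0 = 0}` (`F 0 = X 0 ^ d`).  Definitions.
-/

namespace Pool.Agent.H92.EHD

open scoped BigOperators ComplexConjugate ContDiff ComplexOrder
open MeasureTheory Pool.Agent.H92.EQ

noncomputable section

variable {k : ℕ}

/-- The lower right block. -/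
def low (M : Matrix (Fin (k + 1)) (Fin (k + 1)) ℂ) : Matrix (Fin k) (Fin k) ℂ :=
  M.submatrix Fin.succ Fin.succ

/-- Endomorphisms with `Φ 0 = X 0 ^ D`. -/
structure IsE (D : ℕ) (Φ : Fin (k + 1) → MvPolynomial (Fin (k + 1)) ℂ) : Prop where
  isH : IsH D Φ
  zero : Φ 0 = MvPolynomial.X 0 ^ D

/-- The determinant of the lower block of the Jacobian (homogeneous of degree `k (d-1)`). -/
def lowP (F : Fin (k + 1) → MvPolynomial (Fin (k + 1)) ℂ) : MvPolynomial (Fin (k + 1)) ℂ :=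
  (Matrix.of fun i a : Fin k => MvPolynomial.pderiv a.succ (F i.succ)).det

/-- The relative lower Jacobian of `Φ`. -/
def relL (Φ : Fin (k + 1) → MvPolynomial (Fin (k + 1)) ℂ) (z : Fin (k + 1) → ℂ) : ℝ :=
  ‖(low (jac Φ z)).det‖ * nrm z ^ k / nrm (ev Φ z) ^ k

/-- Replacing the row `0` by `r`. -/
def row0 (r : Fin (k + 1) → ℂ) (X : Fin (k + 1) → Fin (k + 1) → ℂ) :
    Fin (k + 1) → Fin (k + 1) → ℂ := Function.update X 0 r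

/-- Only the first `j` entries of the row `0` are kept. -/
def cut (j : ℕ) (X : Fin (k + 1) → Fin (k + 1) → ℂ) : Fin (k + 1) → Fin (k + 1) → ℂ :=
  row0 (fun i => if (i : ℕ) < j then X 0 i else 0) X

/-- The matrix with row `0` equal to `X_00 e_0`. -/
def e1 (X : Fin (k + 1) → Fin (k + 1) → ℂ) : Matrix (Fin (k + 1)) (Fin (k + 1)) ℂ :=
  Matrix.of (cut 1 X)

/-- The potential `(1/2) log (|z_0|² + δ² |z|²)`. -/
def wH (δ : ℝ) (z : Fin (k + 1) → ℂ) : ℝ :=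
  (1 / 2) * Real.log (‖z 0‖ ^ 2 + δ ^ 2 * nsq z)

/-- The logarithmic mass near the hyperplane is at most `A`. -/
def LM {p : ℕ} (q : ℕ) (S : Form (Fin (k + 1)) p) (A : ℝ) : Prop :=
  ∀ δ : ℝ, 0 < δ → δ ≤ 1 →
    pair (fun z => ell z - wH δ z) S (fun _ : Fin q => ell) ≤ A * mass q (om (k + 1) p)

/-- The near critical set for the lower Jacobian. -/
def CrL (F : Fin (k + 1) → MvPolynomial (Fin (k + 1)) ℂ) (d : ℕ) (r : ℝ) :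
    Set (Fin (k + 1) → ℂ) :=
  {y | nv (lowP F) (k * (d - 1)) y < r}

/-- Near critical visits at level `i` for points of `K`. -/
def HitL (F : Fin (k + 1) → MvPolynomial (Fin (k + 1)) ℂ) (d : ℕ)
    (K : Set (Fin (k + 1) → ℂ)) (i : ℕ) (r h : ℝ) : Prop :=
  ∀ σ : Form (Fin (k + 1)) k, ProjForm σ → InK K σ → mass 0 σ = mass 0 (om (k + 1) k) →
    pair (Set.indicator (CrL F d r) (fun _ => 1)) (Sn F d i σ) (fun _ : Fin 0 => ell) ≤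
      h * mass 0 (om (k + 1) k)

/-- The bad part of level `i`. -/
def betaL {p : ℕ} (F : Fin (k + 1) → MvPolynomial (Fin (k + 1)) ℂ) (d n i q : ℕ) (r : ℝ)
    (S : Form (Fin (k + 1)) p) : ℝ :=
  pair (fun z => Set.indicator (CrL F d r) (fun _ => (1 : ℝ)) (ev (iter F (n - i)) z))
    (Sn F d n S) (fun _ : Fin q => ell)

/-- The class of currents. -/
structure Cls {p : ℕ} (K : Set (Fin (k + 1) → ℂ)) (q : ℕ) (A : ℝ)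
    (S : Form (Fin (k + 1)) p) : Prop where
  pf : ProjForm S
  ink : InK K S
  ms : mass q S = mass q (om (k + 1) p)
  lm : LM q S A

/-- The theorem in codimension `p` for the family `𝒦`: `a` does not depend on `K`. -/
def ConvE (F : Fin (k + 1) → MvPolynomial (Fin (k + 1)) ℂ) (d p : ℕ)
    (𝒦 : Set (Set (Fin (k + 1) → ℂ))) : Prop :=
  ∀ q, p + q = k → ∀ (φ : (Fin (k + 1) → ℂ) → ℝ) (u : Fin q → (Fin (k + 1) → ℂ) → ℝ),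
    Hom0 φ → (∀ j, Pot (u j)) → ∀ ε : ℝ, 0 < ε → ∃ a : ℝ, 0 < a ∧ ∀ K ∈ 𝒦, ∃ n0 : ℕ,
    ∀ n ≥ n0, ∀ S : Form (Fin (k + 1)) p, Cls K q (a * (d : ℝ) ^ n) S →
      |pair φ (Sn F d n S) u - pair φ (Sn F d n (om (k + 1) p)) u| < ε

/-- `a`-values are almost constant near the identity of the group fixing `z_0`. -/
def CstE (F : Fin (k + 1) → MvPolynomial (Fin (k + 1)) ℂ) (d p : ℕ)
    (𝒦 : Set (Set (Fin (k + 1) → ℂ))) : Prop :=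
  ∀ q, p + q = k → ∀ (φ : (Fin (k + 1) → ℂ) → ℝ) (u : Fin q → (Fin (k + 1) → ℂ) → ℝ),
    Hom0 φ → (∀ z, z ≠ 0 → 0 ≤ φ z) → (∀ j, Pot (u j)) → ∀ η δ : ℝ, 0 < η → 0 < δ →
    ∃ a : ℝ, 0 < a ∧ ∀ K ∈ 𝒦, ∃ i1 n0 : ℕ, i1 ≤ n0 ∧ ∀ n ≥ n0,
    ∀ S : Form (Fin (k + 1)) p, Cls K q (a * (d : ℝ) ^ n) S →
    ∀ A : Matrix (Fin (k + 1)) (Fin (k + 1)) ℂ,
      (∀ j, A 0 j = (1 : Matrix (Fin (k + 1)) (Fin (k + 1)) ℂ) 0 j) →
      (∀ i j, ‖A i j - (1 : Matrix (Fin (k + 1)) (Fin (k + 1)) ℂ) i j‖ ≤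
        Real.exp (-(δ * (d : ℝ) ^ (n - i1)))) →
      |am φ (iter F (n - i1)) (Sn F d i1 S) u A -
        (d : ℝ) ^ (p * (n - i1)) * pair φ (Sn F d n S) u| ≤ η * (d : ℝ) ^ (p * (n - i1))

/-- BLOCK P for the set `K`. -/
def PMainE (F : Fin (k + 1) → MvPolynomial (Fin (k + 1)) ℂ) (d : ℕ)
    (K : Set (Fin (k + 1) → ℂ)) : Prop :=
  ∀ η : ℝ, 0 < η → ∃ i1 n0 : ℕ, ∀ n ≥ n0, ∃ h : ℕ → ℝ, (∀ i, 0 ≤ h i) ∧
    ∑ i ∈ Finset.Icc i1 n, h i ≤ η ∧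
    ∀ i ∈ Finset.Icc i1 n, HitL F d K i (Real.exp (-((d : ℝ) ^ n / (n : ℝ) ^ 4))) (h i)

/-- `K` is a closed cone which meets no totally invariant algebraic set which does not contain
the hyperplane. -/
def AwayE (F : Fin (k + 1) → MvPolynomial (Fin (k + 1)) ℂ)
    (K : Set (Fin (k + 1) → ℂ)) : Prop :=
  IsClosed (K ∪ {0}) ∧ (∀ z ∈ K, ∀ l : ℂ, l ≠ 0 → l • z ∈ K) ∧
  ∀ A : Set (MvPolynomial (Fin (k + 1)) ℂ), (∀ h ∈ A, ∃ m, h.IsHomogeneous m) →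
    (∃ z : Fin (k + 1) → ℂ, z ≠ 0 ∧ z 0 = 0 ∧ ∃ h ∈ A, MvPolynomial.eval z h ≠ 0) →
    (∀ z : Fin (k + 1) → ℂ, z ≠ 0 → ((∀ h ∈ A, MvPolynomial.eval (ev F z) h = 0) ↔
      ∀ h ∈ A, MvPolynomial.eval z h = 0)) →
    ∀ z ∈ K, z ≠ 0 → ¬ ∀ h ∈ A, MvPolynomial.eval z h = 0

/-- BLOCK L. -/
def LocLipE (k p q : ℕ) : Prop :=
  ∀ u : Fin q → (Fin (k + 1) → ℂ) → ℝ, (∀ j, Pot (u j)) → ∃ c : ℝ, ∃ m : ℕ, 0 < c ∧
    ∀ (D : ℕ) (Φ : Fin (k + 1) → MvPolynomial (Fin (k + 1)) ℂ), 1 ≤ D → IsE D Φ →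
    ∀ (κ : (Fin (k + 1) → ℂ) → ℝ) (M ρ : ℝ), Hom0 κ → 1 ≤ M → 0 < ρ → ρ ≤ 1 →
    (∀ x, nrm x = 1 → |κ x| ≤ M) →
    (∀ x, nrm x = 1 → ∀ a, ‖wd a (fun w => (κ w : ℂ)) x‖ ≤ M) →
    (∀ x, nrm x = 1 → ∀ i a, ‖jac Φ x i a‖ ≤ M * nrm (ev Φ x)) →
    (∀ x, nrm x = 1 → ∀ i a b,
      ‖MvPolynomial.eval x (MvPolynomial.pderiv b (MvPolynomial.pderiv a (Φ i)))‖ ≤
        M * nrm (ev Φ x)) →
    (∀ x, nrm x = 1 → κ x ≠ 0 → ρ * nrm (ev Φ x) ^ k ≤ ‖(low (jac Φ x)).det‖) →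
    ∀ S : Form (Fin (k + 1)) p, ProjForm S →
    ∀ (A : Matrix (Fin (k + 1)) (Fin (k + 1)) ℂ) (τ : ℝ), 0 ≤ τ → τ ≤ 1 / (2 * (k + 1)) →
    (∀ j, A 0 j = (1 : Matrix (Fin (k + 1)) (Fin (k + 1)) ℂ) 0 j) →
    (∀ i j, ‖A i j - (1 : Matrix (Fin (k + 1)) (Fin (k + 1)) ℂ) i j‖ ≤ τ) →
    |am κ Φ S u A - pair κ (pull Φ S) u| ≤ c * (M / ρ) ^ m * τ * mass q (pull Φ S)

/-- BLOCK T. -/
def TGaussE (k p q : ℕ) : Prop :=
  ∃ c : ℝ, 0 < c ∧ ∀ (D : ℕ) (Φ : Fin (k + 1) → MvPolynomial (Fin (k + 1)) ℂ), 1 ≤ D →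
    IsH D Φ → ∀ (w w' : (Fin (k + 1) → ℂ) → ℝ) (u : Fin q → (Fin (k + 1) → ℂ) → ℝ),
    Pot w → Pot w' → (∀ j, Pot (u j)) → ∀ S : Form (Fin (k + 1)) p, ProjForm S →
    ∀ θ : ℝ, 0 < θ → θ ≤ 1 →
    Integrable (fun X : Fin (k + 1) → Fin (k + 1) → ℂ =>
      gss X * am (fun z => w z - w' z) Φ S u
        (e1 ((1 + (θ : ℂ) • Matrix.of X : Matrix (Fin (k + 1)) (Fin (k + 1)) ℂ)))) ∧
    Integrable (fun X : Fin (k + 1) → Fin (k + 1) → ℂ =>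
      gss X * am (fun z => w z - w' z) Φ S u (e1 X)) ∧
    |(∫ X : Fin (k + 1) → Fin (k + 1) → ℂ, gss X * am (fun z => w z - w' z) Φ S u
        (e1 ((1 + (θ : ℂ) • Matrix.of X : Matrix (Fin (k + 1)) (Fin (k + 1)) ℂ)))) -
      ∫ X : Fin (k + 1) → Fin (k + 1) → ℂ,
        gss X * am (fun z => w z - w' z) Φ S u (e1 X)| ≤
      c * (1 + Real.log (1 / θ)) * ((D : ℝ) ^ p / D) * mass q S

/-- BLOCK R: the mean over the group fixing `z_0`. -/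
def MeanE (k p q : ℕ) : Prop :=
  ∃ c : ℝ, 0 < c ∧ ∀ (D : ℕ) (Φ : Fin (k + 1) → MvPolynomial (Fin (k + 1)) ℂ), 1 ≤ D →
    IsH D Φ → ∀ (w w' : (Fin (k + 1) → ℂ) → ℝ) (u : Fin q → (Fin (k + 1) → ℂ) → ℝ),
    Pot w → Pot w' → (∀ j, Pot (u j)) → ∀ (S : Form (Fin (k + 1)) p) (A : ℝ), 0 ≤ A →
    ProjForm S → mass q S = mass q (om (k + 1) p) → LM q S A →
    |(∫ X : Fin (k + 1) → Fin (k + 1) → ℂ,
        gss X * am (fun z => w z - w' z) Φ S u (e1 X)) -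
      pair (fun z => w z - w' z) (pull Φ (om (k + 1) p)) u| ≤
      c * (1 + A) * ((D : ℝ) ^ p / D) * mass q (om (k + 1) p)

end

end Pool.Agent.H92.EHD
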