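import Pool.Agent.H92.EHD.TR

/-!
Board ehd_modules (MP_75a732_an), block P: near critical visits (lower Jacobian).
`N = k + 1` or `N = k + 2`; `σ` is a smooth density.
-/

namespace Pool.Agent.H92.EHD

open scoped BigOperators ComplexConjugate ContDiff ComplexOrder
open MeasureTheory Pool.Agent.H92.EQ

noncomputable section

section defs

variable {k : ℕ}

/-- Hypotheses on the polynomial `P` (norm of the lower Jacobian). -/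
structure NormE (F : Fin (k + 1) → MvPolynomial (Fin (k + 1)) ℂ)
    (P : MvPolynomial (Fin (k + 1)) ℂ) (M : ℕ) : Prop where
  ne : P ≠ 0
  hom : P.IsHomogeneous M
  pos : 1 ≤ M
  nx : ¬ MvPolynomial.X 0 ∣ P
  dvd : lowP F ∣ MvPolynomial.bind₁ F P

/-- `om^k ∧ dd^c wH δ` on the projective space of dimension `k + 1`. -/
def tauH (δ : ℝ) : Form (Fin (k + 1 + 1)) (k + 1) := fun z =>
  wedge (om (k + 1 + 1) k z) (hessR (wH δ) z)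

/-- The size of the density of `tauH δ`. -/
def hH (δ : ℝ) (y : Fin (k + 1 + 1) → ℂ) : ℝ :=
  δ ^ 2 / (‖y 0‖ ^ 2 / nsq y + δ ^ 2) ^ 2 / nsq y ^ (k + 2)

/-- The parameter of the point `Y`. -/
def dH (t : ℂ) (Y : Fin (k + 1 + 1) → ℂ) : ℝ :=
  ‖Y 0‖ / Real.sqrt (‖Y 0‖ ^ 2 + ‖t‖ ^ 2 * nsq (tl Y))

/-- The bound of the first visit. -/
def FVis (F : Fin (k + 1) → MvPolynomial (Fin (k + 1)) ℂ) (d : ℕ)
    (P : MvPolynomial (Fin (k + 1)) ℂ) (M : ℕ) (C : ℝ) : Prop :=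
  ∀ (r : ℝ) (j : ℕ) (σ : Form (Fin (k + 1)) k), 0 < r → r ≤ 1 / 2 → 1 ≤ j → ProjForm σ →
    EE F d j σ (fun x => noV F (vis P M r) j 0 j x * vis P M r x) ≤
      C * (j / (d : ℝ) ^ j + 1 / Real.log (1 / r)) * mass 0 σ

end defs

/-! ### Algebra -/

/-- EPM: norms which are not divisible by `X 0`. -/
def T_EPM : Prop :=
  ∀ (k D m : ℕ) (Φ : Fin (k + 1) → MvPolynomial (Fin (k + 1)) ℂ)
    (h : MvPolynomial (Fin (k + 1)) ℂ), 1 ≤ D → IsE D Φ → h.IsHomogeneous m →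
    ¬ MvPolynomial.X 0 ∣ h →
    ∃ (h' : MvPolynomial (Fin (k + 1)) ℂ) (m' : ℕ), h'.IsHomogeneous m' ∧
      ¬ MvPolynomial.X 0 ∣ h' ∧ h ∣ MvPolynomial.bind₁ Φ h'

/-- EPN: the norm of the lower Jacobian. -/
def T_EPN : Prop :=
  ∀ (k d : ℕ) (F : Fin (k + 1) → MvPolynomial (Fin (k + 1)) ℂ), 0 < k → 2 ≤ d → IsE d F →
    ∃ (P : MvPolynomial (Fin (k + 1)) ℂ) (M : ℕ), NormE F P M

/-- EPD: descent (as PDS, with the zero set). -/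
def T_EPD : Prop :=
  ∀ (N d m : ℕ) (F : Fin N → MvPolynomial (Fin N) ℂ) (G : MvPolynomial (Fin N) ℂ), 0 < N →
    2 ≤ d → IsH d F → 1 ≤ m → G.IsHomogeneous m → G ≠ 0 →
    ∃ (t s A : ℕ) (h : Fin s → MvPolynomial (Fin N) ℂ) (e : Fin s → ℕ) (C : ℝ),
    InvS F h e C ∧
    (∀ z : Fin N → ℂ, z ≠ 0 → (∀ i, MvPolynomial.eval z (h i) = 0) →
      MvPolynomial.eval z G = 0) ∧
    ∀ z : Fin N → ℂ, z ≠ 0 → ∃ l ≤ t, ∃ x, ev (iter F l) x = z ∧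
      phi h e z ^ A ≤ C * nv G m x

/-- EPR: the relative lower Jacobian on paths without visits (as PRJ). -/
def T_EPR : Prop :=
  ∀ (k d M : ℕ) (F : Fin (k + 1) → MvPolynomial (Fin (k + 1)) ℂ)
    (P : MvPolynomial (Fin (k + 1)) ℂ), 0 < k → 2 ≤ d → IsE d F → NormE F P M →
    ∃ c : ℝ, 0 < c ∧ c ≤ 1 ∧
    (∀ (x : Fin (k + 1) → ℂ), x ≠ 0 →
      c * nv P M (ev F x) ≤ nv (lowP F) (k * (d - 1)) x) ∧
    ∀ (j : ℕ) (r : ℝ) (x : Fin (k + 1) → ℂ), x ≠ 0 → 0 < r → r ≤ 1 →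
      (∀ i, 1 ≤ i → i ≤ j → r ≤ nv P M (ev (iter F i) x)) →
      (c * r) ^ j ≤ relL (iter F j) x

/-! ### The mean over the group -/

/-- EA1: pull-back of densities. -/
def T_EA1 : Prop :=
  ∀ (k D : ℕ) (G : Fin (k + 1) → MvPolynomial (Fin (k + 1)) ℂ) (σ : Form (Fin (k + 1)) k),
    1 ≤ D → (∀ i, (G i).IsHomogeneous D) → ProjForm σ → ∀ x : Fin (k + 1) → ℂ, x ≠ 0 →
    ev G x ≠ 0 →
    Q (pull G σ) (fun _ : Fin 0 => ell) x =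
      (1 / (D : ℝ) ^ 2) * (‖(jac G x).det‖ ^ 2 * Q σ (fun _ : Fin 0 => ell) (ev G x))

/-- EA2: the determinant of the lower block of a Gaussian matrix. -/
def T_EA2 : Prop :=
  ∀ k : ℕ, ∃ C : ENNReal, C ≠ ⊤ ∧ ∀ y : Fin (k + 1) → ℂ, nsq y = 1 →
    ∀ g : (Fin k → ℂ) → ENNReal, Measurable g →
    ∫⁻ X : Fin k → Fin (k + 1) → ℂ,
        ENNReal.ofReal ((∏ i, ∏ j, gs 1 (X i j)) *
          ‖(Matrix.of fun i j : Fin k => X i j.succ).det‖ ^ 2) *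
          g (fun i => ∑ j, X i j * y j) ≤
      C * ∫⁻ w : Fin k → ℂ, ENNReal.ofReal (Real.exp (-nsq w) * (‖y 0‖ ^ 2 + nsq w)) * g w

/-- EA3: the density of `tauH δ`. -/
def T_EA3 : Prop :=
  ∀ k : ℕ, ∃ c C : ℝ, 0 < c ∧ 0 < C ∧ ∀ δ : ℝ, 0 < δ → δ ≤ 1 →
    ProjForm (tauH (k := k) δ) ∧ ∀ y : Fin (k + 1 + 1) → ℂ, y ≠ 0 →
    c * hH δ y ≤ Q (tauH (k := k) δ) (fun _ : Fin 0 => ell) y ∧
    Q (tauH (k := k) δ) (fun _ : Fin 0 => ell) y ≤ C * hH δ y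

/-- EA4: integrals over projective space in a chart. -/
def T_EA4 : Prop :=
  ∀ (k : ℕ) (ψ : (Fin (k + 1) → ℂ) → ENNReal), Measurable ψ →
    (∀ (l : ℂ) (z : Fin (k + 1) → ℂ), l ≠ 0 → z ≠ 0 →
      ψ (l • z) = ENNReal.ofReal ((‖l‖ ^ (2 * (k + 1)))⁻¹) * ψ z) →
    ∀ c : ℂ, c ≠ 0 →
    ∫⁻ z in {z : Fin (k + 1) → ℂ | 0 ≤ ell z ∧ ell z < 1}, ψ z =
      ENNReal.ofReal (2 * Real.pi * ‖c‖ ^ 2) * ∫⁻ w : Fin k → ℂ, ψ (ct c w)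

/-- EA5: the mean of a density is controlled by the densities `tauH δ`. -/
def T_EA5 : Prop :=
  ∀ k : ℕ, ∃ C : ENNReal, C ≠ ⊤ ∧ ∀ σ : Form (Fin (k + 1 + 1)) (k + 1), ProjForm σ →
    ∀ y : Fin (k + 1 + 1) → ℂ, y 0 ≠ 0 →
    ∫⁻ X : Fin (k + 1 + 1) → Fin (k + 1 + 1) → ℂ,
        ENNReal.ofReal (gss X * (‖(e1 X).det‖ ^ 2 *
          Q σ (fun _ : Fin 0 => ell) ((e1 X).mulVec y))) ≤
      C * ∫⁻ t : ℂ, ENNReal.ofReal (gs 1 t) *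
        ∫⁻ Y in {z : Fin (k + 1 + 1) → ℂ | 0 ≤ ell z ∧ ell z < 1},
          ENNReal.ofReal (Q σ (fun _ : Fin 0 => ell) Y * hH (dH t Y) y)

/-- EPA: the mean of the pull-backs of a density by the group. -/
def T_EPA : Prop :=
  ∀ k : ℕ, ∃ C : ℝ, 0 < C ∧ ∀ (D : ℕ) (Φ : Fin (k + 1 + 1) → MvPolynomial (Fin (k + 1 + 1)) ℂ),
    1 ≤ D → IsE D Φ → ∀ (φ : (Fin (k + 1 + 1) → ℂ) → ℝ) (u : Fin 0 → (Fin (k + 1 + 1) → ℂ) → ℝ)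
    (σ : Form (Fin (k + 1 + 1)) (k + 1)) (B : ℝ), Hom0 φ → (∀ z, z ≠ 0 → 0 ≤ φ z) →
    ProjForm σ → 0 ≤ B →
    (∀ δ : ℝ, 0 < δ → δ ≤ 1 → pair φ (pull Φ (tauH (k := k) δ)) u ≤ B) →
    ∫ X : Fin (k + 1 + 1) → Fin (k + 1 + 1) → ℂ, gss X * am φ Φ σ u (e1 X) ≤
      C * B * mass 0 σ

/-! ### Logarithmic integrability -/

/-- EG0: logarithms of polynomials are integrable against Gaussians. -/
def T_EG0 : Prop :=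
  ∀ (k : ℕ) (R : MvPolynomial (Fin k) ℂ), R ≠ 0 →
    Integrable (fun w : Fin k → ℂ => Real.exp (-nsq w) * Real.log ‖MvPolynomial.eval w R‖)

/-- EG1: Jensen for polynomials of one variable. -/
def T_EG1 : Prop :=
  ∀ (Q : Polynomial ℂ), Q.eval 0 ≠ 0 → ∀ c : ℂ,
    IntervalIntegrable (fun θ : ℝ => Real.log ‖Q.eval (Complex.exp (θ * Complex.I) * c)‖)
      volume 0 (2 * Real.pi) ∧
    2 * Real.pi * Real.log ‖Q.eval 0‖ ≤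
      ∫ θ in (0 : ℝ)..(2 * Real.pi), Real.log ‖Q.eval (Complex.exp (θ * Complex.I) * c)‖

/-- EG2: the Gaussian mean of the logarithm in the last coordinates. -/
def T_EG2 : Prop :=
  ∀ (k M : ℕ) (P : MvPolynomial (Fin (k + 1)) ℂ), P.IsHomogeneous M →
    ¬ MvPolynomial.X 0 ∣ P → ∃ C : ℝ, ∀ c : ℂ,
    Integrable (fun w : Fin k → ℂ =>
      Real.exp (-nsq w) * Real.log ‖MvPolynomial.eval (ct c w) P‖) ∧
    -C ≤ ∫ w : Fin k → ℂ, Real.exp (-nsq w) * Real.log ‖MvPolynomial.eval (ct c w) P‖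

/-- EPG: the estimate for `tauH δ`. -/
def T_EPG : Prop :=
  ∀ (k M : ℕ) (P : MvPolynomial (Fin (k + 1 + 1)) ℂ), P.IsHomogeneous M → 1 ≤ M →
    ¬ MvPolynomial.X 0 ∣ P → ∃ C : ℝ, ∀ δ r : ℝ, 0 < δ → δ ≤ 1 → 0 < r → r ≤ 1 →
    pair (fun z => -(1 / 2) * Real.log (nv P M z ^ 2 + r ^ 2)) (tauH (k := k) δ)
      (fun _ : Fin 0 => ell) ≤ C

/-- EPL: the estimate for the pull-backs (as PLI). -/
def T_EPL : Prop :=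
  ∀ (k d M : ℕ) (F : Fin (k + 1 + 1) → MvPolynomial (Fin (k + 1 + 1)) ℂ)
    (P : MvPolynomial (Fin (k + 1 + 1)) ℂ), 2 ≤ d → IsE d F → P.IsHomogeneous M → 1 ≤ M →
    ¬ MvPolynomial.X 0 ∣ P → ∃ C : ℝ, ∀ (j : ℕ) (δ r : ℝ), 0 < δ → δ ≤ 1 → 0 < r → r ≤ 1 →
    EE F d j (tauH δ) (fun z => -(1 / 2) * Real.log (nv P M z ^ 2 + r ^ 2)) ≤ C

/-! ### The walk -/

/-- EPF: the first visit (as PFV). -/
def T_EPF : Prop :=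
  ∀ (k d M : ℕ) (F : Fin (k + 1 + 1) → MvPolynomial (Fin (k + 1 + 1)) ℂ)
    (P : MvPolynomial (Fin (k + 1 + 1)) ℂ), 2 ≤ d → IsE d F → NormE F P M →
    LocLipE (k + 1) (k + 1) 0 → TGaussE (k + 1) (k + 1) 0 →
    ∃ C : ℝ, 0 < C ∧ FVis F d P M C

/-- EPC: escape (as PRC). -/
def T_EPC : Prop :=
  ∀ (k d M : ℕ) (F : Fin (k + 1) → MvPolynomial (Fin (k + 1)) ℂ)
    (P : MvPolynomial (Fin (k + 1)) ℂ) (CF : ℝ), 0 < k → 2 ≤ d → IsE d F →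
    P.IsHomogeneous M → 1 ≤ M → ¬ MvPolynomial.X 0 ∣ P → 0 < CF → FVis F d P M CF →
    ∃ (t s A : ℕ) (h : Fin s → MvPolynomial (Fin (k + 1)) ℂ) (e : Fin s → ℕ)
      (C δ c r0 ε0 : ℝ), InvS F h e C ∧
    (∃ z : Fin (k + 1) → ℂ, z ≠ 0 ∧ z 0 = 0 ∧ ∃ i, MvPolynomial.eval z (h i) ≠ 0) ∧
    0 < δ ∧ δ < 1 ∧ 0 < c ∧ 0 < r0 ∧ r0 ≤ 1 / 2 ∧ 0 < ε0 ∧
    ∀ (r : ℝ) (L : ℕ) (σ : Form (Fin (k + 1)) k), 0 < r → r ≤ r0 → t ≤ L →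
      L ≤ ε0 * Real.log (1 / r) → ProjForm σ → InK {z | r / c ≤ phi h e z ^ A} σ →
      δ * mass 0 σ ≤ EE F d L σ (noV F (vis P M r) L t (L + 1))

/-- EPE: renewal (as PRN). -/
def T_EPE : Prop :=
  ∀ (k d M : ℕ) (F : Fin (k + 1) → MvPolynomial (Fin (k + 1)) ℂ)
    (P : MvPolynomial (Fin (k + 1)) ℂ) (CF : ℝ) (t s A : ℕ)
    (h : Fin s → MvPolynomial (Fin (k + 1)) ℂ) (e : Fin s → ℕ) (C δ c r0 ε0 : ℝ),
    2 ≤ d → IsH d F → P ≠ 0 → P.IsHomogeneous M → 1 ≤ M → 0 < CF → FVis F d P M CF →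
    InvS F h e C → 0 < δ → δ < 1 → 0 < c → 0 < r0 → r0 ≤ 1 / 2 → 0 < ε0 →
    (∀ (r : ℝ) (L : ℕ) (σ : Form (Fin (k + 1)) k), 0 < r → r ≤ r0 → t ≤ L →
      L ≤ ε0 * Real.log (1 / r) → ProjForm σ → InK {z | r / c ≤ phi h e z ^ A} σ →
      δ * mass 0 σ ≤ EE F d L σ (noV F (vis P M r) L t (L + 1))) →
    ∀ (s0 c2 : ℝ), 0 < s0 → 0 < c2 → ∃ (θ B : ℝ) (n0 : ℕ), 1 < θ ∧ 0 < B ∧ ∀ n ≥ n0, ∀ i ≤ n,
    ∀ σ : Form (Fin (k + 1)) k, ProjForm σ → InK {z | s0 ≤ phi h e z} σ →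
      EE F d i σ (vis P M (c2 * Real.exp (-((d : ℝ) ^ n / (n : ℝ) ^ 4)))) ≤
        B / θ ^ i * mass 0 σ

/-- EPZ: the block P. -/
def T_EPZ : Prop :=
  ∀ (k d : ℕ) (F : Fin (k + 1) → MvPolynomial (Fin (k + 1)) ℂ)
    (K : Set (Fin (k + 1) → ℂ)), 0 < k → 2 ≤ d → IsE d F → LocLipE k k 0 → TGaussE k k 0 →
    AwayE F K → PMainE F d K

/-! ### The theorem -/

/-- EAW: the family is stable by preimages. -/
def T_EAW : Prop :=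
  ∀ (k d : ℕ) (F : Fin (k + 1) → MvPolynomial (Fin (k + 1)) ℂ), 2 ≤ d → IsE d F →
    StK F {K | AwayE F K}

/-- EFI: the theorem. -/
def T_EFI : Prop :=
  ∀ (k d p q : ℕ) (F : Fin (k + 1) → MvPolynomial (Fin (k + 1)) ℂ)
    (K : Set (Fin (k + 1) → ℂ)) (φ : (Fin (k + 1) → ℂ) → ℝ)
    (u : Fin q → (Fin (k + 1) → ℂ) → ℝ), 0 < k → 2 ≤ d → p + q = k → IsE d F → AwayE F K →
    Hom0 φ → (∀ j, Pot (u j)) →
    ∃ L : ℝ, Filter.Tendsto (fun n => pair φ (Sn F d n (om (k + 1) p)) u) Filter.atTop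
      (nhds L) ∧
    ∀ ε : ℝ, 0 < ε → ∃ a : ℝ, 0 < a ∧ ∃ n0 : ℕ, ∀ n ≥ n0, ∀ S : Form (Fin (k + 1)) p,
      ProjForm S → InK K S → mass q S = mass q (om (k + 1) p) → LM q S (a * (d : ℝ) ^ n) →
      |pair φ (Sn F d n S) u - L| < ε

end

end Pool.Agent.H92.EHD
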